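import Pool.Agent.Run7.h985.TC.Stm

/-!
# Images exist (piece IMG)
-/

set_option autoImplicit false
set_option linter.all false
set_option backward.isDefEq.respectTransparency false
set_option backward.defeqAttrib.useBackward true

open CategoryTheory Limits MonoidalCategory Pretriangulated Triangulated

namespace Pool.Agent.Run7.h642.TC

open Pool.Agent.Y116.MT Pool.Agent.V1178.MT Run7.h822.MT Run7.h985.TC
open Functor.LaxMonoidal
open scoped ZeroObject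

universe v u w

section

variable {C : Type u} [Category.{v} C] [Preadditive C] [HasZeroObject C] [HasShift C ℤ]
  [∀ n : ℤ, (shiftFunctor C n).Additive] [Pretriangulated C] [MonoidalCategory C]
  [SymmetricCategory C] [TensorTriangulated C] {E : Type w} [Field E] {R : Realisation C E}

/-- a vector above the unit -/
lemma exists_sec {F : C} (v : F ⟶ 𝟙_ C) (hv : R.H.map v ≠ 0) :
    ∃ e : 𝟙_ (ModuleCat.{w} E) ⟶ R.H.obj F, e ≫ R.H.map v = ε R.H := by
  let g : R.H.obj F ⟶ 𝟙_ (ModuleCat.{w} E) := R.H.map v ≫ inv (ε R.H)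
  have hg : g ≠ 0 := by
    intro h0
    apply hv
    have h1 : R.H.map v = g ≫ ε R.H := by
      simp [g]
    rw [h1, h0, zero_comp]
  have hx : ∃ x : R.H.obj F, (g.hom x : E) ≠ 0 := by
    by_contra hcon
    push Not at hcon
    apply hg
    ext x
    exact hcon x
  obtain ⟨x, hx⟩ := hx
  let e : 𝟙_ (ModuleCat.{w} E) ⟶ R.H.obj F :=
    ModuleCat.ofHom (LinearMap.toSpanSingleton E (R.H.obj F) ((g.hom x : E)⁻¹ • x))
  have he : e ≫ g = 𝟙 _ := by
    ext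
    show (g.hom ((LinearMap.toSpanSingleton E (R.H.obj F) ((g.hom x : E)⁻¹ • x)) (1 : E)) : E) = (1 : E)
    rw [LinearMap.toSpanSingleton_apply, one_smul, map_smul]
    show (g.hom x : E)⁻¹ * (g.hom x : E) = 1
    exact inv_mul_cancel₀ hx
  refine ⟨e, ?_⟩
  have h2 : R.H.map v = g ≫ ε R.H := by
    simp [g]
  rw [h2, ← Category.assoc, he, Category.id_comp]

/-- the section of `H(Y ⊗ F) ⟶ H(Y)` -/
noncomputable def sg (R : Realisation C E) {F : C} (e : 𝟙_ (ModuleCat.{w} E) ⟶ R.H.obj F) (Y : C) :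
    R.H.obj Y ⟶ R.H.obj (Y ⊗ F) :=
  (ρ_ (R.H.obj Y)).inv ≫ (R.H.obj Y ◁ e) ≫ μ R.H Y F

lemma sg_sec {F : C} {v : F ⟶ 𝟙_ C} {e : 𝟙_ (ModuleCat.{w} E) ⟶ R.H.obj F}
    (he : e ≫ R.H.map v = ε R.H) (Y : C) :
    sg R e Y ≫ R.H.map (Y ◁ v) ≫ R.H.map (ρ_ Y).hom = 𝟙 _ := by
  have h1 : μ R.H Y F ≫ R.H.map (Y ◁ v) = (R.H.obj Y ◁ R.H.map v) ≫ μ R.H Y (𝟙_ C) :=
    (μ_natural_right R.H Y v).symm
  have h2 : (ρ_ (R.H.obj Y)).hom = (R.H.obj Y ◁ ε R.H) ≫ μ R.H Y (𝟙_ C) ≫ R.H.map (ρ_ Y).hom :=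
    right_unitality R.H Y
  unfold sg
  rw [Category.assoc, Category.assoc, ← Category.assoc (μ R.H Y F), h1, Category.assoc,
    ← Category.assoc (R.H.obj Y ◁ e), ← MonoidalCategory.whiskerLeft_comp, he, ← h2, Iso.inv_hom_id]

lemma sg_natural {F : C} (e : 𝟙_ (ModuleCat.{w} E) ⟶ R.H.obj F) {Y Y' : C} (φ : Y ⟶ Y') :
    sg R e Y ≫ R.H.map (φ ▷ F) = R.H.map φ ≫ sg R e Y' := by
  have h1 : μ R.H Y F ≫ R.H.map (φ ▷ F) = (R.H.map φ ▷ R.H.obj F) ≫ μ R.H Y' F :=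
    (μ_natural_left R.H φ F).symm
  unfold sg
  rw [Category.assoc, Category.assoc, h1, ← Category.assoc (R.H.obj Y ◁ e), whisker_exchange,
    Category.assoc, ← Category.assoc (ρ_ (R.H.obj Y)).inv, ← rightUnitor_inv_naturality,
    Category.assoc]

lemma lShift_natural_right (X : C) {Y Y' : C} (v : Y ⟶ Y') (n : ℤ) :
    ((X⟦n⟧) ◁ v) ≫ (lShift X Y' n).hom = (lShift X Y n).hom ≫ (X ◁ v)⟦n⟧' := by
  unfold lShift
  simp only [Iso.trans_hom, Functor.mapIso_hom, Category.assoc]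
  rw [← Category.assoc, BraidedCategory.braiding_naturality_right, Category.assoc,
    ← Category.assoc (v ▷ (X⟦n⟧)), rShift_natural_left, Category.assoc, ← Functor.map_comp,
    ← Functor.map_comp, BraidedCategory.braiding_naturality_left]

lemma zero_shift_zero {X : C} : IsZero (R.H.obj (X⟦(0 : ℤ)⟧)) ↔ IsZero (R.H.obj X) :=
  ⟨fun h => h.of_iso (R.H.mapIso ((shiftFunctorZero C ℤ).app X).symm),
    fun h => h.of_iso (R.H.mapIso ((shiftFunctorZero C ℤ).app X))⟩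

lemma epi_shift_zero {X Y : C} {f : X ⟶ Y} (h : Epi (R.H.map f)) : Epi (R.H.map (f⟦(0 : ℤ)⟧')) := by
  have h5 : f⟦(0 : ℤ)⟧' = (shiftFunctorZero C ℤ).hom.app _ ≫ f ≫
      (shiftFunctorZero C ℤ).inv.app _ := shiftZero' (A := ℤ) (f := f)
  rw [h5, Functor.map_comp, Functor.map_comp]
  infer_instance

end

/-- **Images exist.** -/
theorem t_IMG (hNIL : S_NIL.{v, u, w}) (hDES : S_DES.{v, u, w}) (hCR1 : S_CR1.{v, u, w})
    (hCR2 : S_CR2.{v, u}) : S_IMG.{v, u, w} := by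
  intro C _ _ _ _ _ _ _ _ _ _ _ _ _ E _ _ R hdual hF M N hM hN f
  by_cases hf : f = 0
  · have h0 : IsZero (R.H.obj (0 : C)) := R.H.map_isZero (isZero_zero C)
    refine ⟨0, 0, 0, fun i _ => R.H.map_isZero (isZero_shift (isZero_zero C) i), ?_, ?_, ?_⟩
    · rw [hf, comp_zero]
    · exact ⟨fun a b _ => h0.eq_of_src _ _⟩
    · exact ⟨fun a b _ => h0.eq_of_tgt _ _⟩
  obtain ⟨U, W, g, A, hU, hW, hg, hA⟩ := hCR1 C E R hF M N hM hN f hf
  obtain ⟨v, b, hv, hb⟩ := hCR2 C M N U W f g A hg hA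
  have hFd : R.Deg (Wᘁ ⊗ U) 0 := by
    have h1 := (hdual W hW).tensor hU
    rwa [add_zero] at h1
  generalize (Wᘁ ⊗ U : C) = F at v b hv hb hFd
  have hHv : R.H.map v ≠ 0 := fun h => hv (hF.zero hFd deg_unit v h)
  obtain ⟨e, he⟩ := exists_sec v hHv
  have hvepi : Epi (R.H.map v) := epi_of_epi_fac he
  obtain ⟨P, q, w, hT⟩ := distinguished_cocone_triangle v
  have hP : R.Deg P (-1) := by
    intro i hi
    by_cases h0 : i = 0
    · subst h0
      have h1 := hepi2 R.H hT 0 (hFd (0 + 1) (by omega))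
      have h2 : Epi (R.H.map (v⟦(0 : ℤ)⟧')) := epi_shift_zero hvepi
      have h3 : R.H.map (v⟦(0 : ℤ)⟧') ≫ R.H.map (q⟦(0 : ℤ)⟧') = 0 := by
        rw [← Functor.map_comp, ← Functor.map_comp, comp12 hT, Functor.map_zero, Functor.map_zero]
      have h4 : R.H.map (q⟦(0 : ℤ)⟧') = 0 := by
        rw [← cancel_epi (R.H.map (v⟦(0 : ℤ)⟧')), h3, comp_zero]
      rw [IsZero.iff_id_eq_zero, ← cancel_epi (R.H.map (q⟦(0 : ℤ)⟧')), h4, zero_comp, zero_comp]
    · exact hz3 R.H hT i (deg_unit i h0) (hFd (i + 1) (by omega))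
  obtain ⟨n, hn⟩ := hNIL C E R hF P q hP
  have haf : ((f ▷ F) ≫ b) ≫ f = (M ◁ v ≫ (ρ_ M).hom) ≫ f := by
    rw [Category.assoc, hb, Category.assoc]
  have hcond : (((f ▷ F) ≫ b) ▷ F) ≫ ((f ▷ F) ≫ b) =
      ((M ◁ v ≫ (ρ_ M).hom) ▷ F) ≫ ((f ▷ F) ≫ b) := by
    rw [← Category.assoc, ← comp_whiskerRight, haf, comp_whiskerRight, Category.assoc]
  obtain ⟨I, p, s, hsp, hps⟩ := hDES C E R hF M F P hM hFd hP v q w hT n hn ((f ▷ F) ≫ b) hcond
  -- the section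
  have hsec : sg R e I ≫ R.H.map s ≫ R.H.map p = 𝟙 _ := by
    rw [← Functor.map_comp, hsp, Functor.map_comp]
    exact sg_sec he I
  have hpepi : Epi (R.H.map p) := by
    have h1 : (sg R e I ≫ R.H.map s) ≫ R.H.map p = 𝟙 _ := by rw [Category.assoc, hsec]
    exact epi_of_epi_fac h1
  have hI : R.Deg I 0 := by
    intro i hi
    have h1 : ((I⟦i⟧) ◁ v) ≫ (lShift I (𝟙_ C) i).hom ≫ ((ρ_ I).hom)⟦i⟧' =
        (lShift I F i).hom ≫ s⟦i⟧' ≫ p⟦i⟧' := by
      rw [← Category.assoc, lShift_natural_right, Category.assoc, ← Functor.map_comp, ← hsp,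
        Functor.map_comp]
    have h2 : R.H.map ((I⟦i⟧) ◁ v) ≫ R.H.map ((lShift I (𝟙_ C) i).hom ≫ ((ρ_ I).hom)⟦i⟧') = 0 := by
      rw [← Functor.map_comp, h1, Functor.map_comp, Functor.map_comp,
        (hM i hi).eq_of_tgt (R.H.map (s⟦i⟧')) 0, zero_comp, comp_zero]
    have h3 : R.H.map ((I⟦i⟧) ◁ v) = 0 := by
      rw [← cancel_mono (R.H.map ((lShift I (𝟙_ C) i).hom ≫ ((ρ_ I).hom)⟦i⟧')), h2, zero_comp]
    have h4 := sg_sec (R := R) he (I⟦i⟧)
    rw [IsZero.iff_id_eq_zero, ← h4, h3, zero_comp, comp_zero]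
  -- the key formula
  have hkey : R.H.map f = R.H.map p ≫ sg R e I ≫ R.H.map s ≫ R.H.map f := by
    have h1 : sg R e M ≫ R.H.map (M ◁ v) ≫ R.H.map (ρ_ M).hom = 𝟙 _ := sg_sec he M
    have h2 : R.H.map (M ◁ v) ≫ R.H.map (ρ_ M).hom ≫ R.H.map f =
        R.H.map (p ▷ F) ≫ R.H.map s ≫ R.H.map f := by
      rw [← Functor.map_comp, ← Functor.map_comp, ← Functor.map_comp, ← Functor.map_comp,
        ← Category.assoc, ← haf, ← hps, Category.assoc]
    calc R.H.map f = (sg R e M ≫ R.H.map (M ◁ v) ≫ R.H.map (ρ_ M).hom) ≫ R.H.map f := by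
          rw [h1, Category.id_comp]
      _ = sg R e M ≫ R.H.map (M ◁ v) ≫ R.H.map (ρ_ M).hom ≫ R.H.map f := by
          simp only [Category.assoc]
      _ = (sg R e M ≫ R.H.map (p ▷ F)) ≫ R.H.map s ≫ R.H.map f := by
          rw [h2, Category.assoc]
      _ = _ := by
          rw [sg_natural, Category.assoc]
  -- the kernel
  obtain ⟨K, k, δ, hK⟩ := distinguished_cocone_triangle₁ p
  have hKd : R.Deg K 0 := by
    intro i hi
    by_cases h1 : i = 1
    · subst h1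
      have h2 := hepi2 R.H (rotD hK) 0 (hM (0 + 1) (by omega))
      have h3 : Epi (R.H.map (p⟦(0 : ℤ)⟧')) := epi_shift_zero hpepi
      have h4 : R.H.map (p⟦(0 : ℤ)⟧') ≫ R.H.map (δ⟦(0 : ℤ)⟧') = 0 := by
        rw [← Functor.map_comp, ← Functor.map_comp, comp23 hK, Functor.map_zero, Functor.map_zero]
      have h5 : R.H.map (δ⟦(0 : ℤ)⟧') = 0 := by
        rw [← cancel_epi (R.H.map (p⟦(0 : ℤ)⟧')), h4, comp_zero]
      have h6 : IsZero (R.H.obj ((K⟦(1 : ℤ)⟧)⟦(0 : ℤ)⟧)) := by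
        rw [IsZero.iff_id_eq_zero, ← cancel_epi (R.H.map (δ⟦(0 : ℤ)⟧')), h5, zero_comp, zero_comp]
      exact zero_shift_zero.1 h6
    · exact hz1 R.H hK i (hM i hi) (hI (i - 1) (by omega))
  have hkf : k ≫ f = 0 := by
    apply hF.zero hKd hN
    rw [Functor.map_comp, hkey, ← Category.assoc, ← Functor.map_comp, comp12 hK, Functor.map_zero,
      zero_comp]
  obtain ⟨j, hj⟩ := ye2 hK f hkf
  refine ⟨I, p, j, hI, hj.symm, hpepi, ?_⟩
  -- the retraction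
  have hret : R.H.map j ≫ sg R e N ≫ R.H.map b ≫ R.H.map p = 𝟙 _ := by
    rw [← cancel_epi (R.H.map p), Category.comp_id]
    calc R.H.map p ≫ R.H.map j ≫ sg R e N ≫ R.H.map b ≫ R.H.map p =
        (R.H.map f ≫ sg R e N) ≫ R.H.map b ≫ R.H.map p := by
          rw [hj, Functor.map_comp]
          simp only [Category.assoc]
      _ = sg R e M ≫ R.H.map ((f ▷ F) ≫ b) ≫ R.H.map p := by
          rw [← sg_natural, Functor.map_comp]
          simp only [Category.assoc]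
      _ = sg R e M ≫ R.H.map (p ▷ F) ≫ R.H.map s ≫ R.H.map p := by
          rw [← hps, Functor.map_comp]
          simp only [Category.assoc]
      _ = R.H.map p ≫ sg R e I ≫ R.H.map s ≫ R.H.map p := by
          rw [← Category.assoc, sg_natural, Category.assoc]
      _ = _ := by
          rw [hsec, Category.comp_id]
  exact mono_of_mono_fac hret

end Pool.Agent.Run7.h642.TC
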